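import Pool.Agent.N658.TP.Stm

/-! # A column of an approximate power with small energy -/

set_option linter.unusedSectionVars false

open scoped BigOperators ComplexConjugate Matrix

noncomputable section

namespace Pool.Agent.N134.TP.Col

open Pool.Agent.TH235 Pool.Agent.TH235.PP

section gen

variable {n : Type} [Fintype n] [DecidableEq n]

lemma spec_dec' (A : Matrix n n ℂ) (hA : A.IsHermitian) :
    ∃ U : Matrix n n ℂ, Uᴴ * U = 1 ∧ U * Uᴴ = 1 ∧
      A = U * Matrix.diagonal (fun j => ((hA.eigenvalues j : ℝ) : ℂ)) * Uᴴ ∧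
      ∀ κ : ℝ, (1 : Matrix n n ℂ) - (κ : ℂ) • A =
      U * Matrix.diagonal (fun j => ((1 - κ * hA.eigenvalues j : ℝ) : ℂ)) * Uᴴ := by
  obtain ⟨U, h1, h2, h3⟩ := PP.spec_dec A hA
  refine ⟨U, h1, h2, ?_, h3⟩
  have h4 := h3 (-1)
  have h6 : (Matrix.diagonal (fun j => ((1 - (-1) * hA.eigenvalues j : ℝ) : ℂ)) : Matrix n n ℂ) =
      1 + Matrix.diagonal (fun j => ((hA.eigenvalues j : ℝ) : ℂ)) := by
    ext i j
    by_cases hij : i = j
    · subst hij
      simp
    · simp [Matrix.diagonal_apply_ne _ hij, Matrix.one_apply_ne hij]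
  rw [h6, mul_add, add_mul, mul_one, h2] at h4
  have h7 : (1 : Matrix n n ℂ) - ((-1 : ℝ) : ℂ) • A = 1 + A := by
    push_cast
    rw [neg_smul, one_smul, sub_neg_eq_add]
  rw [h7] at h4
  exact add_left_cancel h4

lemma diag_pow (U : Matrix n n ℂ) (hU : Uᴴ * U = 1) (hU' : U * Uᴴ = 1) (l : n → ℝ) (M : ℕ) :
    (U * Matrix.diagonal (fun j => ((l j : ℝ) : ℂ)) * Uᴴ) ^ M =
      U * Matrix.diagonal (fun j => ((l j ^ M : ℝ) : ℂ)) * Uᴴ := by
  induction M with
  | zero => simp [hU']
  | succ M ih =>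
    rw [pow_succ, ih]
    calc U * Matrix.diagonal (fun j => ((l j ^ M : ℝ) : ℂ)) * Uᴴ *
          (U * Matrix.diagonal (fun j => ((l j : ℝ) : ℂ)) * Uᴴ)
        = U * (Matrix.diagonal (fun j => ((l j ^ M : ℝ) : ℂ)) * (Uᴴ * U) *
          Matrix.diagonal (fun j => ((l j : ℝ) : ℂ))) * Uᴴ := by simp only [mul_assoc]
      _ = _ := by
        rw [hU, mul_one, Matrix.diagonal_mul_diagonal]
        congr 3
        funext i
        rw [pow_succ]
        push_cast
        rfl

/-- the sum of the diagonal forms is a trace -/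
lemma sum_ip (P B : Matrix n n ℂ) :
    ∑ t, ip (fun s => P s t) (B *ᵥ fun s => P s t) = (Pᴴ * B * P).trace := by
  unfold Matrix.trace
  refine Finset.sum_congr rfl fun t _ => ?_
  rw [Matrix.diag_apply, mul_assoc, Matrix.mul_apply]
  unfold ip
  refine Finset.sum_congr rfl fun s _ => ?_
  rw [Matrix.conjTranspose_apply, Matrix.mul_apply]
  rfl

lemma sum_normSq (P : Matrix n n ℂ) : ∑ t, normSq (fun s => P s t) = fr2 P := by
  unfold normSq fr2
  exact Finset.sum_comm

lemma trace_diag (U : Matrix n n ℂ) (hU : Uᴴ * U = 1) (l : n → ℝ) :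
    (U * Matrix.diagonal (fun j => ((l j : ℝ) : ℂ)) * Uᴴ).trace = ((∑ j, l j : ℝ) : ℂ) := by
  rw [Matrix.trace_mul_comm, ← mul_assoc, hU, one_mul, Matrix.trace_diagonal]
  push_cast
  rfl

lemma dia_herm (U : Matrix n n ℂ) (l : n → ℝ) :
    (U * Matrix.diagonal (fun j => ((l j : ℝ) : ℂ)) * Uᴴ)ᴴ =
      U * Matrix.diagonal (fun j => ((l j : ℝ) : ℂ)) * Uᴴ := by
  rw [Matrix.conjTranspose_mul, Matrix.conjTranspose_mul, Matrix.conjTranspose_conjTranspose,
    Matrix.diagonal_conjTranspose, mul_assoc]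
  congr 3
  funext i
  simp

lemma dia_mul (U : Matrix n n ℂ) (hU : Uᴴ * U = 1) (l l' : n → ℝ) :
    (U * Matrix.diagonal (fun j => ((l j : ℝ) : ℂ)) * Uᴴ) *
      (U * Matrix.diagonal (fun j => ((l' j : ℝ) : ℂ)) * Uᴴ) =
      U * Matrix.diagonal (fun j => ((l j * l' j : ℝ) : ℂ)) * Uᴴ := by
  calc _ = U * (Matrix.diagonal (fun j => ((l j : ℝ) : ℂ)) * (Uᴴ * U) *
          Matrix.diagonal (fun j => ((l' j : ℝ) : ℂ))) * Uᴴ := by simp only [mul_assoc]
      _ = _ := by
        rw [hU, mul_one, Matrix.diagonal_mul_diagonal]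
        congr 3
        funext i
        push_cast
        rfl

lemma ip_add_left (u v w : n → ℂ) : ip (u + v) w = ip u w + ip v w := by
  unfold ip
  rw [← Finset.sum_add_distrib]
  refine Finset.sum_congr rfl fun s _ => ?_
  rw [Pi.add_apply, map_add, add_mul]

lemma ip_add_right (u v w : n → ℂ) : ip u (v + w) = ip u v + ip u w := by
  unfold ip
  rw [← Finset.sum_add_distrib]
  refine Finset.sum_congr rfl fun s _ => ?_
  rw [Pi.add_apply, mul_add]

lemma ip_self (u : n → ℂ) : ip u u = ((normSq u : ℝ) : ℂ) := by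
  unfold ip normSq
  push_cast
  refine Finset.sum_congr rfl fun s _ => ?_
  rw [RCLike.conj_mul]
  norm_cast

/-- the quadratic form of `A - E` -/
lemma q_eq (A : Matrix n n ℂ) (E : ℝ) (u : n → ℂ) :
    (ip u ((A - (E : ℂ) • 1) *ᵥ u)).re = (ip u (A *ᵥ u)).re - E * normSq u := by
  rw [Matrix.sub_mulVec, Matrix.smul_mulVec, Matrix.one_mulVec, sub_eq_add_neg, ip_add_right,
    ← neg_smul, ip_smul_right, ip_self, Complex.add_re, ← Complex.ofReal_neg,
    ← Complex.ofReal_mul, Complex.ofReal_re]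
  ring

open scoped Matrix.Norms.L2Operator in
lemma q_add (H : Matrix n n ℂ) (C : ℝ) (hC : ‖H‖ ≤ C) (p d : n → ℂ) :
    (ip (p + d) (H *ᵥ (p + d))).re ≤ (ip p (H *ᵥ p)).re + 2 * C * (nr d * nr p) + C * nr d ^ 2 := by
  rw [Matrix.mulVec_add, ip_add_left, ip_add_right, ip_add_right, Complex.add_re, Complex.add_re,
    Complex.add_re]
  have hb : ∀ u v : n → ℂ, (ip u (H *ᵥ v)).re ≤ C * (nr u * nr v) := by
    intro u v
    have h1 := (Complex.re_le_norm _).trans (ip_le u (H *ᵥ v))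
    have h2 := nr_mulVec H v
    have h3 : ‖H‖ * nr v ≤ C * nr v := mul_le_mul_of_nonneg_right hC (nr_nonneg v)
    have h4 : nr u * nr (H *ᵥ v) ≤ nr u * (C * nr v) :=
      mul_le_mul_of_nonneg_left (h2.trans h3) (nr_nonneg u)
    linarith
  have h1 := hb p d
  have h2 := hb d p
  have h3 := hb d d
  nlinarith [h1, h2, h3]

end gen

theorem col : Pool.Agent.N658.TP.StmCol := by
  intro n _ _ _ A hA κ E X B0 δ M K0 hE hl hB0 hEB hX hδ0 hδ1 hX2 hfr
  obtain ⟨U, hU, hU', hAd, hdec⟩ := spec_dec' A hA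
  set l : n → ℝ := fun j => 1 - κ * hA.eigenvalues j with hldef
  set lam := hA.eigenvalues with hlam
  have hl' : ∀ j, 0 < l j := hl
  set S : ℝ := ∑ j, l j ^ (2 * M) with hS
  have hS0 : 0 < S := Finset.sum_pos (fun j _ => pow_pos (hl' j) _) Finset.univ_nonempty
  have hB : 0 ≤ B0 := (abs_nonneg E).trans hEB
  set P : Matrix n n ℂ := (1 - (κ : ℂ) • A) ^ M with hP
  have hPd : P = U * Matrix.diagonal (fun j => ((l j ^ M : ℝ) : ℂ)) * Uᴴ := by
    rw [hP, hdec κ]
    exact diag_pow U hU hU' l M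
  have hPh : Pᴴ = P := by
    rw [hPd]
    exact dia_herm U _
  -- the traces
  have hfrP : fr2 P = S := by
    have h1 := fr2_trace P
    rw [hPh, hPd, dia_mul U hU, trace_diag U hU, ← hPd] at h1
    have h2 := Complex.ofReal_injective h1
    rw [← h2, hS]
    refine Finset.sum_congr rfl fun j _ => ?_
    rw [← pow_add]
    congr 1
    ring
  have htr : ∑ t, (ip (fun s => P s t) (A *ᵥ fun s => P s t)).re = ∑ j, l j ^ (2 * M) * lam j := by
    rw [← Complex.re_sum, sum_ip, hPh]
    have h1 : P * A * P = U * Matrix.diagonal (fun j => ((l j ^ M * lam j * l j ^ M : ℝ) : ℂ)) * Uᴴ := by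
      rw [hPd, hAd, dia_mul U hU, dia_mul U hU]
    rw [h1, trace_diag U hU, Complex.ofReal_re]
    refine Finset.sum_congr rfl fun j _ => ?_
    rw [two_mul, pow_add]
    ring
  set H : Matrix n n ℂ := A - (E : ℂ) • 1 with hH
  open scoped Matrix.Norms.L2Operator in
  have hHn : ‖H‖ ≤ 2 * B0 := by
    rw [hH]
    refine (norm_sub_le _ _).trans ?_
    rw [norm_smul, Complex.norm_real, Real.norm_eq_abs]
    have h1 : ‖(1 : Matrix n n ℂ)‖ = 1 := norm_one
    rw [h1, mul_one]
    linarith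
  set D : Matrix n n ℂ := K0 - P with hD
  have hcol : ∀ t, (fun s => K0 s t) = (fun s => P s t) + fun s => D s t := by
    intro t
    funext s
    rw [Pi.add_apply, hD, Matrix.sub_apply]
    ring
  -- sums of squares
  have hDsum : ∑ t, nr (fun s => D s t) ^ 2 ≤ δ ^ 2 * S := by
    have h1 : ∑ t, nr (fun s => D s t) ^ 2 = fr2 D := by
      rw [← sum_normSq]
      exact Finset.sum_congr rfl fun t _ => nr_sq _
    rw [h1]
    exact hfr
  have hPsum : ∑ t, nr (fun s => P s t) ^ 2 = S := by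
    rw [← hfrP, ← sum_normSq]
    exact Finset.sum_congr rfl fun t _ => nr_sq _
  have hCS : ∑ t, nr (fun s => D s t) * nr (fun s => P s t) ≤ δ * S := by
    have h1 := Real.sum_mul_le_sqrt_mul_sqrt Finset.univ (fun t => nr (fun s => D s t))
      (fun t => nr (fun s => P s t))
    refine h1.trans ?_
    rw [hPsum]
    have h2 : Real.sqrt (∑ t, nr (fun s => D s t) ^ 2) ≤ δ * Real.sqrt S := by
      rw [← Real.sqrt_sq hδ0, ← Real.sqrt_mul (sq_nonneg δ)]
      exact Real.sqrt_le_sqrt hDsum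
    calc _ ≤ δ * Real.sqrt S * Real.sqrt S := mul_le_mul_of_nonneg_right h2 (Real.sqrt_nonneg _)
      _ = δ * S := by rw [mul_assoc, Real.mul_self_sqrt hS0.le]
  -- the total norm
  have hK : S / 4 ≤ fr2 K0 := by
    have h1 : fr P ≤ fr K0 + fr D := by
      have h2 : P = K0 + -D := by rw [hD]; abel
      have h3 := fr_add K0 (-D)
      rw [fr_neg, ← h2] at h3
      exact h3
    have h4 : fr P = Real.sqrt S := by
      rw [← hfrP, ← fr_sq, Real.sqrt_sq (fr_nonneg _)]
    have h5 : fr D ≤ δ * Real.sqrt S := by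
      rw [← Real.sqrt_sq hδ0, ← Real.sqrt_mul (sq_nonneg δ), ← Real.sqrt_sq (fr_nonneg D), fr_sq]
      exact Real.sqrt_le_sqrt hfr
    have h6 : Real.sqrt S / 2 ≤ fr K0 := by
      have h7 := Real.sqrt_nonneg S
      nlinarith [h1, h4, h5, h7]
    have h8 := pow_le_pow_left₀ (by positivity) h6 2
    rw [fr_sq, div_pow, Real.sq_sqrt hS0.le] at h8
    linarith
  -- the total energy
  have hEn : ∑ t, (ip (fun s => K0 s t) (H *ᵥ fun s => K0 s t)).re ≤ S * (X + 5 * B0 * δ) := by
    have h1 : ∀ t, (ip (fun s => K0 s t) (H *ᵥ fun s => K0 s t)).re ≤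
        (ip (fun s => P s t) (H *ᵥ fun s => P s t)).re +
          2 * (2 * B0) * (nr (fun s => D s t) * nr (fun s => P s t)) +
          (2 * B0) * nr (fun s => D s t) ^ 2 := by
      intro t
      rw [hcol t]
      exact q_add H _ hHn _ _
    refine (Finset.sum_le_sum fun t _ => h1 t).trans ?_
    rw [Finset.sum_add_distrib, Finset.sum_add_distrib, ← Finset.mul_sum, ← Finset.mul_sum]
    have h2 : ∑ t, (ip (fun s => P s t) (H *ᵥ fun s => P s t)).re ≤ X * S := by
      have h3 : ∑ t, (ip (fun s => P s t) (H *ᵥ fun s => P s t)).re =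
          ∑ j, l j ^ (2 * M) * (lam j - E) := by
        rw [hH]
        simp only [q_eq]
        rw [Finset.sum_sub_distrib, htr, ← Finset.mul_sum, sum_normSq, hfrP, hS, Finset.mul_sum,
          ← Finset.sum_sub_distrib]
        refine Finset.sum_congr rfl fun j _ => ?_
        ring
      rw [h3]
      exact hX2
    have h4 : 2 * (2 * B0) * ∑ t, nr (fun s => D s t) * nr (fun s => P s t) ≤
        2 * (2 * B0) * (δ * S) := mul_le_mul_of_nonneg_left hCS (by positivity)
    have h5 : (2 * B0) * ∑ t, nr (fun s => D s t) ^ 2 ≤ (2 * B0) * (δ ^ 2 * S) :=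
      mul_le_mul_of_nonneg_left hDsum (by positivity)
    have h6 : (2 * B0) * (δ ^ 2 * S) ≤ B0 * (δ * S) := by
      have h7 : δ ^ 2 ≤ δ / 2 := by nlinarith
      have h8 : δ ^ 2 * S ≤ δ / 2 * S := mul_le_mul_of_nonneg_right h7 hS0.le
      nlinarith [mul_le_mul_of_nonneg_left h8 (by positivity : (0:ℝ) ≤ 2 * B0)]
    linarith
  -- conclusion
  by_contra hcon
  push Not at hcon
  have hns : ∀ t, 0 ≤ normSq (fun s => K0 s t) := fun t => by
    unfold normSq
    exact Finset.sum_nonneg fun s _ => by positivity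
  set c : ℝ := 4 * X + 24 * B0 * δ with hc
  have hc0 : 0 ≤ c := by positivity
  have hle : ∀ t, c * normSq (fun s => K0 s t) ≤
      (ip (fun s => K0 s t) (H *ᵥ fun s => K0 s t)).re := by
    intro t
    rw [hH, q_eq]
    rcases (hns t).lt_or_eq with h0 | h0
    · have := hcon t h0
      rw [hc]
      linarith
    · have hz : (fun s => K0 s t) = 0 := by
        have h1 : nr (fun s => K0 s t) = 0 := by
          have := nr_sq (fun s => K0 s t)
          rw [← h0] at this
          exact pow_eq_zero_iff (two_ne_zero) |>.1 this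
        unfold nr at h1
        have h2 := norm_eq_zero.1 h1
        have h3 := congrArg WithLp.ofLp h2
        exact h3
      rw [hz]
      simp [ip, normSq]
  have hlt : ∃ t ∈ Finset.univ, c * normSq (fun s => K0 s t) <
      (ip (fun s => K0 s t) (H *ᵥ fun s => K0 s t)).re := by
    have h1 : 0 < ∑ t, normSq (fun s => K0 s t) := by
      rw [sum_normSq]
      linarith
    obtain ⟨t, ht, h2⟩ := Finset.exists_lt_of_sum_lt (s := Finset.univ)
      (f := fun _ : n => (0 : ℝ)) (g := fun t => normSq (fun s => K0 s t)) (by simpa using h1)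
    refine ⟨t, ht, ?_⟩
    rw [hH, q_eq]
    have := hcon t h2
    rw [hc]
    linarith
  have h1 := Finset.sum_lt_sum (fun t _ => hle t) hlt
  rw [← Finset.mul_sum, sum_normSq] at h1
  have h2 : c * (S / 4) ≤ c * fr2 K0 := mul_le_mul_of_nonneg_left hK hc0
  have h3 : c * (S / 4) = S * (X + 6 * B0 * δ) := by rw [hc]; ring
  have h4 : 0 ≤ S * (B0 * δ) := by positivity
  nlinarith [h1, h2, h3, h4, hEn]

end Pool.Agent.N134.TP.Col
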