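import Pool.Agent.N658.TP.Stm2
import Pool.Agent.Y65.PE.Bound
import Pool.Agent.Y155.PE.Cut

/-! # The product of the reduced density matrices of the tiles as reference state -/

set_option linter.unusedSectionVars false

open scoped BigOperators ComplexConjugate Matrix

noncomputable section

namespace Pool.Agent.N134.TP.Ref

open Pool.Agent.Y738.PE Pool.Agent.N658.TP

section core

variable {S T β : Type} [Fintype S] [DecidableEq S] [Fintype T] [DecidableEq T] [Fintype β]
  [DecidableEq β] (e : S ≃ (T → β)) (U : Matrix β β ℂ)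

/-- the tensor power -/
def VV : Matrix S S ℂ := Matrix.of fun σ σ' => ∏ t, U (e σ t) (e σ' t)

lemma sum_prod (F : T → β → ℂ) : ∑ σ : S, ∏ t, F t (e σ t) = ∏ t, ∑ x, F t x := by
  rw [e.sum_comp (fun s => ∏ t, F t (s t)), Finset.prod_univ_sum, Fintype.piFinset_univ]

lemma sandwich (f : T → β → ℂ) (σ σ'' : S) :
    (VV e U * Matrix.diagonal (fun σ' => ∏ t, f t (e σ' t)) * (VV e U)ᴴ) σ σ'' =
      ∏ t, ∑ x, U (e σ t) x * f t x * conj (U (e σ'' t) x) := by
  rw [Matrix.mul_apply]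
  simp only [Matrix.mul_diagonal, Matrix.conjTranspose_apply, VV, Matrix.of_apply]
  rw [← sum_prod e]
  refine Finset.sum_congr rfl fun σ' _ => ?_
  rw [Finset.prod_mul_distrib, Finset.prod_mul_distrib]
  congr 1
  rw [RCLike.star_def, map_prod]

lemma VV_unit (hU' : U * Uᴴ = 1) : VV e U * (VV e U)ᴴ = 1 := by
  have h := sandwich e U (fun _ _ => 1)
  simp only [Finset.prod_const_one, Matrix.diagonal_one, mul_one] at h
  ext σ σ''
  rw [h]
  have h2 : ∀ x y, ∑ z, U x z * conj (U y z) = if x = y then 1 else 0 := by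
    intro x y
    have h3 := congrFun (congrFun hU' x) y
    rw [Matrix.mul_apply, Matrix.one_apply] at h3
    exact h3
  simp only [h2]
  rw [Matrix.one_apply]
  by_cases hσ : σ = σ''
  · subst hσ
    simp
  · rw [if_neg hσ]
    have : ∃ t, e σ t ≠ e σ'' t := by
      by_contra hcon
      push Not at hcon
      exact hσ (e.injective (funext hcon))
    obtain ⟨t, ht⟩ := this
    exact Finset.prod_eq_zero (Finset.mem_univ t) (if_neg ht)

/-- the one-tile operator -/
def Lm (ll : β → ℝ) : Matrix β β ℂ := Matrix.of fun x y => ∑ z, U x z * (ll z : ℂ) * conj (U y z)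

/-- the generator -/
def GG (ll : β → ℝ) : Matrix S S ℂ :=
  VV e U * Matrix.diagonal (fun σ' => ((∑ t, ll (e σ' t) : ℝ) : ℂ)) * (VV e U)ᴴ

lemma GG_apply (hU' : U * Uᴴ = 1) (ll : β → ℝ) (σ σ'' : S) :
    GG e U ll σ σ'' = ∑ t, if ∀ t', t' ≠ t → e σ t' = e σ'' t' then Lm U ll (e σ t) (e σ'' t)
      else 0 := by
  have h1 : (Matrix.diagonal (fun σ' => ((∑ t, ll (e σ' t) : ℝ) : ℂ)) : Matrix S S ℂ) =
      ∑ t, Matrix.diagonal (fun σ' => ∏ t', (if t' = t then (ll (e σ' t') : ℂ) else 1)) := by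
    ext i j
    rw [Matrix.sum_apply]
    by_cases hij : i = j
    · subst hij
      simp
    · simp [Matrix.diagonal_apply_ne _ hij]
  have h2 : ∀ x y, ∑ z, U x z * conj (U y z) = if x = y then 1 else 0 := by
    intro x y
    have h3 := congrFun (congrFun hU' x) y
    rw [Matrix.mul_apply, Matrix.one_apply] at h3
    exact h3
  unfold GG
  rw [h1, Finset.mul_sum, Finset.sum_mul, Matrix.sum_apply]
  refine Finset.sum_congr rfl fun t _ => ?_
  have h3 := sandwich e U (fun t' x => if t' = t then (ll x : ℂ) else 1) σ σ''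
  rw [h3]
  rw [← Finset.mul_prod_erase _ _ (Finset.mem_univ t)]
  have h4 : ∑ x, U (e σ t) x * (if t = t then (ll x : ℂ) else 1) * conj (U (e σ'' t) x) =
      Lm U ll (e σ t) (e σ'' t) := by
    simp only [if_true, Lm, Matrix.of_apply]
  rw [h4]
  have h5 : ∏ t' ∈ Finset.univ.erase t, ∑ x, U (e σ t') x *
      (if t' = t then (ll x : ℂ) else 1) * conj (U (e σ'' t') x) =
      if ∀ t', t' ≠ t → e σ t' = e σ'' t' then 1 else 0 := by
    have h6 : ∀ t' ∈ Finset.univ.erase t, ∑ x, U (e σ t') x *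
      (if t' = t then (ll x : ℂ) else 1) * conj (U (e σ'' t') x) =
        if e σ t' = e σ'' t' then 1 else 0 := by
      intro t' ht'
      have h7 : t' ≠ t := Finset.ne_of_mem_erase ht'
      simp only [if_neg h7, mul_one]
      exact h2 _ _
    rw [Finset.prod_congr rfl h6]
    by_cases hall : ∀ t', t' ≠ t → e σ t' = e σ'' t'
    · rw [if_pos hall]
      exact Finset.prod_eq_one fun t' ht' => if_pos (hall t' (Finset.ne_of_mem_erase ht'))
    · rw [if_neg hall]
      push Not at hall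
      obtain ⟨t', h8, h9⟩ := hall
      exact Finset.prod_eq_zero (Finset.mem_erase.2 ⟨h8, Finset.mem_univ _⟩) (if_neg h9)
  rw [h5]
  split_ifs <;> simp

/-- the expectation on the tile `t` -/
def ex1 (Φ : S → ℂ) (t : T) (B : β → β → ℂ) : ℂ :=
  ∑ σ : S, ∑ τ : β, conj (Φ σ) * B (e σ t) τ * Φ (e.symm (Function.update (e σ) t τ))

lemma reidx (Φ : S → ℂ) (t : T) (σ : S) (h : β → ℂ) :
    ∑ σ'' : S, (if ∀ t', t' ≠ t → e σ t' = e σ'' t' then h (e σ'' t) else 0) * Φ σ'' =
      ∑ τ : β, h τ * Φ (e.symm (Function.update (e σ) t τ)) := by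
  simp only [ite_mul, zero_mul]
  rw [← Finset.sum_filter]
  symm
  refine Finset.sum_bij' (fun τ _ => e.symm (Function.update (e σ) t τ)) (fun σ'' _ => e σ'' t)
    ?_ ?_ ?_ ?_ ?_
  · intro τ _
    rw [Finset.mem_filter]
    refine ⟨Finset.mem_univ _, fun t' ht' => ?_⟩
    rw [Equiv.apply_symm_apply, Function.update_of_ne ht']
  · intro σ'' _
    exact Finset.mem_univ _
  · intro τ _
    simp
  · intro σ'' hσ''
    rw [Finset.mem_filter] at hσ''
    rw [Equiv.symm_apply_eq]
    funext t'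
    by_cases ht' : t' = t
    · subst ht'
      simp
    · rw [Function.update_of_ne ht']
      exact hσ''.2 t' ht'
  · intro τ _
    simp

lemma ip_GG (hU' : U * Uᴴ = 1) (ll : β → ℝ) (Φ : S → ℂ) :
    Pool.Agent.TH235.PP.ip Φ (GG e U ll *ᵥ Φ) = ∑ t, ex1 e Φ t (Lm U ll) := by
  unfold Pool.Agent.TH235.PP.ip ex1
  rw [Finset.sum_comm]
  refine Finset.sum_congr rfl fun σ _ => ?_
  have h1 : (GG e U ll *ᵥ Φ) σ =
      ∑ t, ∑ τ : β, Lm U ll (e σ t) τ * Φ (e.symm (Function.update (e σ) t τ)) := by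
    unfold Matrix.mulVec dotProduct
    simp only [GG_apply e U hU', Finset.sum_mul]
    rw [Finset.sum_comm]
    refine Finset.sum_congr rfl fun t _ => ?_
    exact reidx e Φ t σ (fun y => Lm U ll (e σ t) y)
  rw [h1, Finset.mul_sum]
  refine Finset.sum_congr rfl fun t _ => ?_
  rw [Finset.mul_sum]
  refine Finset.sum_congr rfl fun τ _ => ?_
  ring

lemma VV_inv (hU' : U * Uᴴ = 1) : (VV e U)⁻¹ = (VV e U)ᴴ :=
  Matrix.inv_eq_right_inv (VV_unit e U hU')

lemma GG_herm (ll : β → ℝ) : (GG e U ll).IsHermitian := by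
  unfold Matrix.IsHermitian GG
  rw [Matrix.conjTranspose_mul, Matrix.conjTranspose_mul, Matrix.conjTranspose_conjTranspose,
    Matrix.diagonal_conjTranspose, mul_assoc]
  congr 3
  funext i
  simp

lemma exp_GG (hU' : U * Uᴴ = 1) (ll : β → ℝ) : NormedSpace.exp (GG e U ll) =
    VV e U * Matrix.diagonal (fun σ' => ((∏ t, Real.exp (ll (e σ' t)) : ℝ) : ℂ)) * (VV e U)ᴴ := by
  have hu : IsUnit (VV e U) := by
    rw [Matrix.isUnit_iff_isUnit_det]
    have := congrArg Matrix.det (VV_unit e U hU')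
    rw [Matrix.det_mul, Matrix.det_one] at this
    exact IsUnit.of_mul_eq_one _ this
  unfold GG
  rw [← VV_inv e U hU', Matrix.exp_conj _ _ hu, Matrix.exp_diagonal]
  congr 2
  congr 1
  funext σ'
  rw [Pi.coe_exp, ← Complex.exp_eq_exp_ℂ, ← Complex.ofReal_exp, Real.exp_sum]

lemma sum_q (ll : β → ℝ) (h1 : ∑ x, Real.exp (ll x) = 1) :
    ∑ s : T → β, ∏ t, Real.exp (ll (s t)) = 1 := by
  have h2 := Finset.prod_univ_sum (fun _ : T => (Finset.univ : Finset β))
    (fun (_ : T) x => Real.exp (ll x))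
  rw [Fintype.piFinset_univ] at h2
  rw [← h2]
  simp [h1]

lemma exp_GG_sum (hU' : U * Uᴴ = 1) (ll : β → ℝ) : NormedSpace.exp (GG e U ll) =
    ∑ s : T → β, ((∏ t, Real.exp (ll (s t)) : ℝ) : ℂ) •
      Matrix.vecMulVec (fun σ => ∏ t, U (e σ t) (s t)) (star (fun σ => ∏ t, U (e σ t) (s t))) := by
  rw [exp_GG e U hU']
  ext σ σ''
  rw [Matrix.mul_apply, Matrix.sum_apply, ← e.sum_comp]
  refine Finset.sum_congr rfl fun σ' _ => ?_
  rw [Matrix.mul_diagonal, Matrix.conjTranspose_apply, Matrix.smul_apply, Matrix.vecMulVec_apply]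
  simp only [VV, Matrix.of_apply, smul_eq_mul, Pi.star_apply]
  ring

lemma trace_exp_GG (hU : U * Uᴴ = 1) (ll : β → ℝ) (h1 : ∑ x, Real.exp (ll x) = 1) :
    (NormedSpace.exp (GG e U ll)).trace = 1 := by
  have h2 : (VV e U)ᴴ * VV e U = 1 := mul_eq_one_comm.1 (VV_unit e U hU)
  rw [exp_GG e U hU, Matrix.trace_mul_comm, ← mul_assoc, h2, one_mul, Matrix.trace_diagonal,
    ← Complex.ofReal_sum, e.sum_comp (fun s => ∏ t, Real.exp (ll (s t))), sum_q ll h1,
    Complex.ofReal_one]

end core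

section tile

variable {d b k : ℕ} [NeZero (b * k)]

omit [NeZero (b * k)] in
lemma bpos (b k : ℕ) [NeZero (b * k)] : 0 < b := Nat.pos_of_ne_zero fun h => NeZero.ne (b * k) (by rw [h, zero_mul])

omit [NeZero (b * k)] in
lemma kpos (b k : ℕ) [NeZero (b * k)] : 0 < k := Nat.pos_of_ne_zero fun h => NeZero.ne (b * k) (by rw [h, mul_zero])

lemma tile_lt {t p : ℕ} (ht : t < k) (hp : p < b) : b * t + p < b * k := by
  calc b * t + p < b * t + b := by omega
    _ = b * (t + 1) := by ring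
    _ ≤ b * k := Nat.mul_le_mul_left _ ht

/-- configurations and configurations on the tiles -/
def tileE : Conf d (b * k) ≃ (Fin k × Fin k → BConf d b) where
  toFun σ t := box b σ (crn t)
  invFun f := fun w =>
    f (⟨w.1.val / b, Nat.div_lt_of_lt_mul (ZMod.val_lt w.1)⟩,
       ⟨w.2.val / b, Nat.div_lt_of_lt_mul (ZMod.val_lt w.2)⟩)
      (⟨w.1.val % b, Nat.mod_lt _ (bpos b k)⟩, ⟨w.2.val % b, Nat.mod_lt _ (bpos b k)⟩)
  left_inv σ := by
    funext w
    simp only [box, crn]
    congr 1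
    ext
    · simp only
      rw [← Nat.cast_add, Nat.div_add_mod, ZMod.natCast_zmod_val]
    · simp only
      rw [← Nat.cast_add, Nat.div_add_mod, ZMod.natCast_zmod_val]
  right_inv f := by
    funext t p
    have hb : 0 < b := bpos b k
    have h1 : (((b * (t.1 : ℕ) : ℕ) : ZMod (b * k)) + (((p.1 : ℕ)) : ZMod (b * k))).val =
        b * t.1 + p.1 := Pool.Agent.Y155.PE.val1 (tile_lt t.1.2 p.1.2)
    have h2 : (((b * (t.2 : ℕ) : ℕ) : ZMod (b * k)) + (((p.2 : ℕ)) : ZMod (b * k))).val =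
        b * t.2 + p.2 := Pool.Agent.Y155.PE.val1 (tile_lt t.2.2 p.2.2)
    have h3 : (b * (t.1 : ℕ) + p.1) / b = t.1 := by
      rw [Nat.mul_add_div hb, Nat.div_eq_of_lt p.1.2, add_zero]
    have h4 : (b * (t.2 : ℕ) + p.2) / b = t.2 := by
      rw [Nat.mul_add_div hb, Nat.div_eq_of_lt p.2.2, add_zero]
    have h5 : (b * (t.1 : ℕ) + p.1) % b = p.1 := by
      rw [Nat.mul_add_mod, Nat.mod_eq_of_lt p.1.2]
    have h6 : (b * (t.2 : ℕ) + p.2) % b = p.2 := by
      rw [Nat.mul_add_mod, Nat.mod_eq_of_lt p.2.2]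
    simp only [box, crn]
    congr 1
    · congr 1
      · ext
        simp only [h1, h3]
      · ext
        simp only [h2, h4]
    · ext
      · simp only [h1, h5]
      · simp only [h2, h6]

lemma put_tile (σ : Conf d (b * k)) (t : Fin k × Fin k) (τ : BConf d b) :
    put σ (crn t) τ = tileE.symm (Function.update (tileE σ) t τ) := by
  rw [Equiv.eq_symm_apply]
  have hb : 0 < b := bpos b k
  have hk : 0 < k := kpos b k
  have hbk : b ≤ b * k := Nat.le_mul_of_pos_right b hk
  funext t'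
  by_cases ht : t' = t
  · subst ht
    rw [Function.update_self]
    exact Pool.Agent.Y65.PE.box_put hbk σ (crn t') τ
  · rw [Function.update_of_ne ht]
    funext p
    refine dif_neg ?_
    rintro ⟨h1, h2⟩
    apply ht
    have h3 : (((b * (t'.1 : ℕ) : ℕ) : ZMod (b * k)) + (((p.1 : ℕ)) : ZMod (b * k))).val =
        b * t'.1 + p.1 := Pool.Agent.Y155.PE.val1 (tile_lt t'.1.2 p.1.2)
    have h4 : (((b * (t'.2 : ℕ) : ℕ) : ZMod (b * k)) + (((p.2 : ℕ)) : ZMod (b * k))).val =
        b * t'.2 + p.2 := Pool.Agent.Y155.PE.val1 (tile_lt t'.2.2 p.2.2)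
    have h5 : b * (t.1 : ℕ) + b ≤ b * k := by
      have := Nat.mul_le_mul_left b t.1.2
      linarith [this, Nat.mul_succ b (t.1 : ℕ)]
    have h6 : b * (t.2 : ℕ) + b ≤ b * k := by
      have := Nat.mul_le_mul_left b t.2.2
      linarith [this, Nat.mul_succ b (t.2 : ℕ)]
    have h7 : b * (t.1 : ℕ) ≤ b * (t'.1 : ℕ) + p.1 ∧
        b * (t'.1 : ℕ) + p.1 < b * (t.1 : ℕ) + b := by
      rw [← h3]
      exact (Pool.Agent.Y155.PE.val4 h5 _).1 h1
    have h8 : b * (t.2 : ℕ) ≤ b * (t'.2 : ℕ) + p.2 ∧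
        b * (t'.2 : ℕ) + p.2 < b * (t.2 : ℕ) + b := by
      rw [← h4]
      exact (Pool.Agent.Y155.PE.val4 h6 _).1 h2
    have key : ∀ x y q : ℕ, q < b → b * x ≤ b * y + q → b * y + q < b * x + b → y = x := by
      intro x y q hq h9 h10
      have h11 : y < x + 1 := by
        by_contra hcon
        push Not at hcon
        have := Nat.mul_le_mul_left b hcon
        rw [Nat.mul_succ] at this
        omega
      have h12 : x < y + 1 := by
        by_contra hcon
        push Not at hcon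
        have := Nat.mul_le_mul_left b hcon
        rw [Nat.mul_succ] at this
        omega
      omega
    ext
    · exact key _ _ _ p.1.2 h7.1 h7.2
    · exact key _ _ _ p.2.2 h8.1 h8.2

lemma ex1_eq (Φ : Conf d (b * k) → ℂ) (t : Fin k × Fin k) (B : BConf d b → BConf d b → ℂ) :
    ex1 tileE Φ t B = expec Φ (crn t) B := by
  unfold ex1 expec
  refine Finset.sum_congr rfl fun σ _ => Finset.sum_congr rfl fun τ _ => ?_
  rw [put_tile]
  rfl

end tile

/-- the energy of the generator on the density matrix -/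
lemma Lm_tr {β : Type} [Fintype β] [DecidableEq β] (ρ : Matrix β β ℂ) (hρ : ρ.IsHermitian)
    (ll : β → ℝ) :
    ∑ x, ∑ y, Lm (hρ.eigenvectorUnitary : Matrix β β ℂ) ll x y * ρ y x =
      ((∑ i, ll i * hρ.eigenvalues i : ℝ) : ℂ) := by
  set U : Matrix β β ℂ := (hρ.eigenvectorUnitary : Matrix β β ℂ) with hUdef
  have hU : Uᴴ * U = 1 := Unitary.coe_star_mul_self hρ.eigenvectorUnitary
  have h2 : ρ = U * Matrix.diagonal (fun j => ((hρ.eigenvalues j : ℝ) : ℂ)) * Uᴴ := by
    have h3 := hρ.spectral_theorem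
    rw [Unitary.conjStarAlgAut_apply] at h3
    exact h3
  have h1 : Lm U ll = U * Matrix.diagonal (fun j => ((ll j : ℝ) : ℂ)) * Uᴴ := by
    ext x y
    rw [Matrix.mul_apply]
    simp only [Matrix.mul_diagonal, Lm, Matrix.of_apply, Matrix.conjTranspose_apply]
    rfl
  have h3 : ∑ x, ∑ y, Lm U ll x y * ρ y x = (Lm U ll * ρ).trace := by
    unfold Matrix.trace
    refine Finset.sum_congr rfl fun x _ => ?_
    rw [Matrix.diag_apply, Matrix.mul_apply]
  rw [h3, h1]
  conv_lhs => rw [h2]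
  have h4 : U * Matrix.diagonal (fun j => ((ll j : ℝ) : ℂ)) * Uᴴ *
      (U * Matrix.diagonal (fun j => ((hρ.eigenvalues j : ℝ) : ℂ)) * Uᴴ) =
      U * Matrix.diagonal (fun j => ((ll j * hρ.eigenvalues j : ℝ) : ℂ)) * Uᴴ := by
    calc _ = U * (Matrix.diagonal (fun j => ((ll j : ℝ) : ℂ)) * (Uᴴ * U) *
          Matrix.diagonal (fun j => ((hρ.eigenvalues j : ℝ) : ℂ))) * Uᴴ := by simp only [mul_assoc]
      _ = _ := by
        rw [hU, mul_one, Matrix.diagonal_mul_diagonal]
        congr 3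
        funext i
        push_cast
        rfl
  rw [h4, Matrix.trace_mul_comm, ← mul_assoc, hU, one_mul, Matrix.trace_diagonal]
  push_cast
  rfl

/-- the scalar inequality -/
lemma scal (η N x : ℝ) (hη : 0 < η) (hη2 : η ≤ 1 / 2) (hN : 0 < N) (hx : 0 ≤ x) :
    -(Real.log ((1 - η) * x + η / N) * x) ≤ Real.negMulLog x + 2 * η * x := by
  rcases hx.lt_or_eq with h0 | h0
  · have h1 : 0 < (1 - η) * x := mul_pos (by linarith) h0
    have h2 : Real.log ((1 - η) * x) ≤ Real.log ((1 - η) * x + η / N) :=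
      Real.log_le_log h1 (by linarith [div_pos hη hN])
    rw [Real.log_mul (by linarith) h0.ne'] at h2
    have h3 : -(2 * η) ≤ Real.log (1 - η) := by
      have h4 := Real.one_sub_inv_le_log_of_pos (by linarith : (0:ℝ) < 1 - η)
      have h5 : -(2 * η) ≤ 1 - (1 - η)⁻¹ := by
        rw [le_sub_comm, inv_le_comm₀ (by linarith) (by linarith)]
        rw [inv_eq_one_div, div_le_iff₀ (by linarith)]
        nlinarith
      linarith
    have h6 : (Real.log x - 2 * η) * x ≤ Real.log ((1 - η) * x + η / N) * x :=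
      mul_le_mul_of_nonneg_right (by linarith) h0.le
    unfold Real.negMulLog
    nlinarith
  · rw [← h0]
    simp

theorem ref : StmRef := by
  classical
  intro d b k _ hd hb hk ρ hρ htr η hη hη2 Φ hΦ hexp
  have hH : ρ.IsHermitian := hρ.1
  have hev : ∀ i, 0 ≤ hH.eigenvalues i := fun i => hρ.eigenvalues_nonneg i
  set U : Matrix (BConf d b) (BConf d b) ℂ :=
    (hH.eigenvectorUnitary : Matrix (BConf d b) (BConf d b) ℂ) with hU
  have hUU : U * Uᴴ = 1 := Unitary.coe_mul_star_self hH.eigenvectorUnitary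
  have hNe : Nonempty (BConf d b) := ⟨fun _ => ⟨0, by omega⟩⟩
  set N : ℝ := (Fintype.card (BConf d b) : ℝ) with hN
  have hN0 : 0 < N := by
    rw [hN]
    exact_mod_cast Fintype.card_pos
  set l : BConf d b → ℝ := fun i => (1 - η) * hH.eigenvalues i + η / N with hl
  have hl0 : ∀ i, 0 < l i := fun i => by
    have h1 : 0 ≤ (1 - η) * hH.eigenvalues i := mul_nonneg (by linarith) (hev i)
    have h2 := div_pos hη hN0
    simp only [hl]
    linarith
  have hsum : ∑ i, hH.eigenvalues i = 1 := by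
    have h1 := hH.trace_eq_sum_eigenvalues
    rw [htr] at h1
    have h2 : ((1 : ℝ) : ℂ) = ((∑ i, hH.eigenvalues i : ℝ) : ℂ) := by
      push_cast
      exact h1
    exact (Complex.ofReal_injective h2).symm
  have hlsum : ∑ i, Real.exp (Real.log (l i)) = 1 := by
    have h1 : ∀ i, Real.exp (Real.log (l i)) = l i := fun i => Real.exp_log (hl0 i)
    simp only [h1]
    simp only [hl]
    rw [Finset.sum_add_distrib, ← Finset.mul_sum, hsum, Finset.sum_const, Finset.card_univ,
      nsmul_eq_mul, ← hN]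
    field_simp
    ring
  refine ⟨fun s => ∏ t, Real.exp (Real.log (l (s t))), fun s t x => U x (s t),
    GG tileE U (fun i => Real.log (l i)), GG_herm _ _ _, ?_, ?_, ?_, ?_⟩
  · intro s
    exact Finset.prod_nonneg fun t _ => (Real.exp_pos _).le
  · exact exp_GG_sum tileE U hUU (fun i => Real.log (l i))
  · exact trace_exp_GG tileE U hUU (fun i => Real.log (l i)) hlsum
  · unfold qf
    rw [ip_GG tileE U hUU]
    have hE : ∀ t : Fin k × Fin k, ex1 tileE Φ t (Lm U fun i => Real.log (l i)) =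
        ((∑ i, Real.log (l i) * hH.eigenvalues i : ℝ) : ℂ) := fun t => by
      exact (ex1_eq Φ t _).trans ((hexp t _).trans (Lm_tr ρ hH _))
    rw [Finset.sum_congr rfl fun t _ => hE t]
    rw [Finset.sum_const, Finset.card_univ, Fintype.card_prod, Fintype.card_fin, nsmul_eq_mul]
    have h1 : (((k * k : ℕ) : ℂ) * ((∑ i, Real.log (l i) * hH.eigenvalues i : ℝ) : ℂ)).re =
        (k : ℝ) ^ 2 * ∑ i, Real.log (l i) * hH.eigenvalues i := by
      have : (((k * k : ℕ) : ℂ) * ((∑ i, Real.log (l i) * hH.eigenvalues i : ℝ) : ℂ)) =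
          (((k : ℝ) ^ 2 * ∑ i, Real.log (l i) * hH.eigenvalues i : ℝ) : ℂ) := by
        push_cast
        ring
      rw [this, Complex.ofReal_re]
    rw [h1, ← mul_neg]
    refine mul_le_mul_of_nonneg_left ?_ (by positivity)
    rw [← Finset.sum_neg_distrib]
    refine (Finset.sum_le_sum fun i _ => scal η N _ hη hη2 hN0 (hev i)).trans ?_
    rw [Finset.sum_add_distrib, ← Finset.mul_sum, hsum, mul_one]
    unfold vnE
    rw [dif_pos hH]

end Pool.Agent.N134.TP.Ref
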